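import Mathlib

/-! X-rays of ellipsoids. -/

set_option autoImplicit false

open MeasureTheory Set
open scoped InnerProductSpace ENNReal

noncomputable section

namespace Pool.Agent.Y512.XR

variable {E : Type*} [NormedAddCommGroup E] [InnerProductSpace ℝ E]

/-- A convex body: a compact convex set with nonempty interior. -/
def IsBody (K : Set E) : Prop :=
  Convex ℝ K ∧ IsCompact K ∧ (interior K).Nonempty

/-- The X-ray of `K` in the direction `u`: the length of the intersection of `K` with the line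
through `x` parallel to `u` (for a unit vector `u`). -/
def xray (u : E) (K : Set E) (x : E) : ℝ≥0∞ :=
  volume {t : ℝ | x + t • u ∈ K}

/-- The shear `x ↦ x - ⟨p, x⟩ u`. -/
def sh (u p x : E) : E := x - ⟪p, x⟫_ℝ • u

/-- The sheared unit ball. -/
def ell (u p : E) : Set E := {x : E | ‖sh u p x‖ ≤ 1}

lemma sh_add (u p x y : E) : sh u p (x + y) = sh u p x + sh u p y := by
  simp only [sh, inner_add_right, add_smul]; abel

lemma sh_smul (u p : E) (c : ℝ) (x : E) : sh u p (c • x) = c • sh u p x := by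
  simp only [sh, inner_smul_right, smul_sub, mul_smul]

/-- The length of the solution set of `‖X + t W‖ ≤ 1` depends only on `‖W‖²` and the
discriminant. -/
lemma volume_line {X X' W W' : E} (hW : W ≠ 0) (h1 : ‖W‖ ^ 2 = ‖W'‖ ^ 2)
    (h2 : ⟪X, W⟫_ℝ ^ 2 - ‖W‖ ^ 2 * (‖X‖ ^ 2 - 1) = ⟪X', W'⟫_ℝ ^ 2 - ‖W'‖ ^ 2 * (‖X'‖ ^ 2 - 1)) :
    volume {t : ℝ | ‖X + t • W‖ ≤ 1} = volume {t : ℝ | ‖X' + t • W'‖ ≤ 1} := by
  have ha : 0 < ‖W‖ ^ 2 := by positivity
  have ha' : 0 < ‖W'‖ ^ 2 := by rw [← h1]; exact ha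
  have key : ∀ (Y V : E), 0 < ‖V‖ ^ 2 →
      volume {t : ℝ | ‖Y + t • V‖ ≤ 1} =
        volume {s : ℝ | (‖V‖ ^ 2 * s) ^ 2 ≤ ⟪Y, V⟫_ℝ ^ 2 - ‖V‖ ^ 2 * (‖Y‖ ^ 2 - 1)} := by
    intro Y V hV
    have hset : {t : ℝ | ‖Y + t • V‖ ≤ 1} =
        (fun t : ℝ => t + ⟪Y, V⟫_ℝ / ‖V‖ ^ 2) ⁻¹'
          {s : ℝ | (‖V‖ ^ 2 * s) ^ 2 ≤ ⟪Y, V⟫_ℝ ^ 2 - ‖V‖ ^ 2 * (‖Y‖ ^ 2 - 1)} := by
      ext t
      simp only [mem_ofPred_eq, mem_preimage]
      have e1 : ‖Y + t • V‖ ^ 2 = ‖Y‖ ^ 2 + 2 * t * ⟪Y, V⟫_ℝ + t ^ 2 * ‖V‖ ^ 2 := by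
        rw [norm_add_sq_real, inner_smul_right, norm_smul, mul_pow, Real.norm_eq_abs, sq_abs]
        ring
      have e2 : ‖V‖ ^ 2 * (t + ⟪Y, V⟫_ℝ / ‖V‖ ^ 2) = ‖V‖ ^ 2 * t + ⟪Y, V⟫_ℝ := by
        rw [mul_add, mul_div_cancel₀ _ hV.ne']
      rw [e2]
      have e3 : ‖Y + t • V‖ ≤ 1 ↔ ‖Y + t • V‖ ^ 2 ≤ 1 := by
        rw [sq_le_one_iff₀ (norm_nonneg _)]
      rw [e3, e1]
      constructor
      · intro h
        nlinarith
      · intro h
        by_contra hcon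
        push Not at hcon
        have : 0 < ‖V‖ ^ 2 * (‖Y‖ ^ 2 + 2 * t * ⟪Y, V⟫_ℝ + t ^ 2 * ‖V‖ ^ 2 - 1) := by
          apply mul_pos hV; linarith
        nlinarith
    rw [hset, measure_preimage_add_right]
  rw [key X W ha, key X' W' ha', ← h2, ← h1]

lemma line_mem (u p v x : E) (t : ℝ) :
    x + t • v ∈ ell u p ↔ ‖sh u p x + t • sh u p v‖ ≤ 1 := by
  simp only [ell, mem_ofPred_eq, sh_add, sh_smul]

/-- All sheared balls have the X-ray of the unit ball in direction `u`. -/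
lemma xray_u (u p : E) (hu : ‖u‖ = 1) (hp : ⟪p, u⟫_ℝ = 0) (x : E) :
    xray u (ell u p) x = xray u (ell u 0) x := by
  have hW : ∀ q : E, ⟪q, u⟫_ℝ = 0 → sh u q u = u := by
    intro q hq; simp [sh, hq]
  have h0 : ⟪(0 : E), u⟫_ℝ = 0 := inner_zero_left _
  simp only [xray, line_mem, hW p hp, hW 0 h0]
  have hu0 : u ≠ 0 := by
    intro h; rw [h, norm_zero] at hu; exact zero_ne_one hu
  apply volume_line hu0 rfl
  have huu : ⟪u, u⟫_ℝ = 1 := by rw [real_inner_self_eq_norm_sq, hu]; norm_num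
  have e1 : ∀ q : E, ⟪sh u q x, u⟫_ℝ = ⟪x, u⟫_ℝ - ⟪q, x⟫_ℝ := by
    intro q; simp only [sh, inner_sub_left, inner_smul_left, huu]; simp
  have e2 : ∀ q : E, ‖sh u q x‖ ^ 2 = ‖x‖ ^ 2 - 2 * ⟪q, x⟫_ℝ * ⟪x, u⟫_ℝ + ⟪q, x⟫_ℝ ^ 2 := by
    intro q
    simp only [sh]
    rw [norm_sub_sq_real, inner_smul_right, norm_smul, hu, mul_one, Real.norm_eq_abs, sq_abs]
    ring
  rw [e1, e1, e2, e2, hu]
  ring

/-- The unit ball and the body `ell u ((2 β / A) a)` have the same X-ray in direction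
`v = a + β u`. -/
lemma xray_v (u v : E) (hu : ‖u‖ = 1) (A β : ℝ) (hA : 0 < A) (a : E)
    (ha : ⟪a, u⟫_ℝ = 0) (hAa : ‖a‖ ^ 2 = A) (hv : v = a + β • u) (x : E) :
    xray v (ell u ((2 * β / A) • a)) x = xray v (ell u 0) x := by
  have huu : ⟪u, u⟫_ℝ = 1 := by rw [real_inner_self_eq_norm_sq, hu]; norm_num
  have haa : ⟪a, a⟫_ℝ = A := by rw [real_inner_self_eq_norm_sq, hAa]
  have hua : ⟪u, a⟫_ℝ = 0 := by rw [real_inner_comm]; exact ha
  simp only [xray, line_mem]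
  have hW' : sh u 0 v = a + β • u := by simp [sh, hv]
  have hX' : sh u 0 x = x := by simp [sh]
  have hW : sh u ((2 * β / A) • a) v = a + (-β) • u := by
    have : ⟪(2 * β / A) • a, v⟫_ℝ = 2 * β := by
      rw [hv, inner_smul_left, inner_add_right, inner_smul_right, haa, ha]
      simp
      field_simp
    simp only [sh]
    rw [this, hv]
    module
  have hX : sh u ((2 * β / A) • a) x = x + (-(2 * β / A * ⟪a, x⟫_ℝ)) • u := by
    simp only [sh, inner_smul_left]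
    simp
    module
  rw [hW, hX, hW', hX']
  have n1 : ∀ c : ℝ, ‖a + c • u‖ ^ 2 = A + c ^ 2 := by
    intro c
    rw [norm_add_sq_real, inner_smul_right, norm_smul, hu, ha, hAa, mul_one, Real.norm_eq_abs,
      sq_abs]
    ring
  have n2 : ∀ c : ℝ, ‖x + c • u‖ ^ 2 = ‖x‖ ^ 2 + 2 * c * ⟪x, u⟫_ℝ + c ^ 2 := by
    intro c
    rw [norm_add_sq_real, inner_smul_right, norm_smul, hu, mul_one, Real.norm_eq_abs, sq_abs]
    ring
  have n3 : ∀ c d : ℝ, ⟪x + c • u, a + d • u⟫_ℝ = ⟪a, x⟫_ℝ + d * ⟪x, u⟫_ℝ + c * d := by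
    intro c d
    simp only [inner_add_left, inner_add_right, inner_smul_left, inner_smul_right, huu, hua]
    rw [real_inner_comm x a]
    simp
    ring
  have n4 : ⟪x, a + β • u⟫_ℝ = ⟪a, x⟫_ℝ + β * ⟪x, u⟫_ℝ := by
    have := n3 0 β
    simpa using this
  have hne : a + (-β) • u ≠ 0 := by
    intro h
    have := n1 (-β)
    rw [h, norm_zero] at this
    nlinarith
  apply volume_line hne
  · rw [n1, n1]; ring
  · rw [n1, n1, n2, n3, n4]
    field_simp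
    ring

lemma xray_smul (u : E) (K : Set E) (x : E) (c : ℝ) (hc : c ≠ 0) :
    xray (c • u) K x = ENNReal.ofReal |c⁻¹| * xray u K x := by
  unfold xray
  have h : {t : ℝ | x + t • c • u ∈ K} = (fun t => c * t) ⁻¹' {t : ℝ | x + t • u ∈ K} := by
    ext t
    simp only [mem_ofPred_eq, mem_preimage, smul_smul, mul_comm]
  rw [h, Real.volume_preimage_mul_left hc]

/-- X-rays in the direction `u` agree iff those in direction `c u` agree -/
lemma xray_smul_eq {u : E} {K L : Set E} {c : ℝ} (hc : c ≠ 0)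
    (h : ∀ x, xray u K x = xray u L x) (x : E) : xray (c • u) K x = xray (c • u) L x := by
  rw [xray_smul u K x c hc, xray_smul u L x c hc, h]

end Pool.Agent.Y512.XR
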