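import Pool.Agent.Y512.XR.Basic

/-! Moments and X-rays. -/

set_option autoImplicit false

open MeasureTheory Set
open scoped InnerProductSpace ENNReal

noncomputable section

namespace Pool.Agent.Y512.XR

variable {E : Type*} [NormedAddCommGroup E] [InnerProductSpace ℝ E] [FiniteDimensional ℝ E]
  [MeasurableSpace E] [BorelSpace E]

/-- weight of total mass one -/
def wt (s : ℝ) : ℝ≥0∞ := (Ico (0 : ℝ) 1).indicator (fun _ => 1) s

lemma measurable_wt : Measurable wt := measurable_const.indicator measurableSet_Ico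

lemma lintegral_wt : ∫⁻ s, wt s = 1 := by
  unfold wt
  rw [lintegral_indicator measurableSet_Ico]
  simp

/-- the integral over `K` of a function which is constant along `u` depends on the X-ray of `K` in the
direction `u` only -/
lemma lintegral_eq_xray (u : E) (hu : ‖u‖ = 1) (K : Set E) (hK : MeasurableSet K) (h : E → ℝ≥0∞)
    (hm : Measurable h) (hinv : ∀ x (t : ℝ), h (x + t • u) = h x) :
    ∫⁻ x in K, h x = ∫⁻ x, wt ⟪x, u⟫_ℝ * (h x * xray u K x) := by
  have hwt : Measurable fun x : E => wt ⟪x, u⟫_ℝ :=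
    measurable_wt.comp (measurable_id.inner_const)
  set G : E → ℝ≥0∞ := K.indicator h with hG
  have hGm : Measurable G := hm.indicator hK
  have e1 : ∀ x, h x * xray u K x = ∫⁻ t : ℝ, G (x + t • u) := by
    intro x
    have hKx : MeasurableSet {t : ℝ | x + t • u ∈ K} :=
      hK.preimage (by fun_prop : Measurable fun t : ℝ => x + t • u)
    have : (fun t : ℝ => G (x + t • u)) = {t : ℝ | x + t • u ∈ K}.indicator (fun _ => h x) := by
      funext t
      by_cases ht : x + t • u ∈ K
      · rw [hG, indicator_of_mem ht, indicator_of_mem (show t ∈ {t : ℝ | x + t • u ∈ K} from ht),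
          hinv]
      · rw [hG, indicator_of_notMem ht,
          indicator_of_notMem (show t ∉ {t : ℝ | x + t • u ∈ K} from ht)]
    rw [this, lintegral_indicator hKx, setLIntegral_const]
    rfl
  have hmeas2 : Measurable fun q : E × ℝ => wt ⟪q.1, u⟫_ℝ * G (q.1 + q.2 • u) := by
    refine (hwt.comp measurable_fst).mul (hGm.comp ?_)
    fun_prop
  have hmeas3 : Measurable fun q : E × ℝ => wt (⟪q.1, u⟫_ℝ - q.2) * G q.1 := by
    refine (measurable_wt.comp ?_).mul (hGm.comp measurable_fst)
    exact (measurable_fst.inner_const).sub measurable_snd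
  calc ∫⁻ x in K, h x = ∫⁻ x, G x := by rw [hG, lintegral_indicator hK]
    _ = ∫⁻ x, ∫⁻ t : ℝ, wt (⟪x, u⟫_ℝ - t) * G x := by
        refine lintegral_congr fun x => ?_
        have hw2 : Measurable fun t : ℝ => wt (⟪x, u⟫_ℝ - t) :=
          measurable_wt.comp (measurable_const.sub measurable_id)
        rw [lintegral_mul_const _ hw2,
          lintegral_sub_left_eq_self (fun t => wt t) ⟪x, u⟫_ℝ, lintegral_wt, one_mul]
    _ = ∫⁻ t : ℝ, ∫⁻ x, wt (⟪x, u⟫_ℝ - t) * G x :=
        lintegral_lintegral_swap hmeas3.aemeasurable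
    _ = ∫⁻ t : ℝ, ∫⁻ x, wt ⟪x, u⟫_ℝ * G (x + t • u) := by
        refine lintegral_congr fun t => ?_
        rw [← lintegral_add_right_eq_self (fun x => wt (⟪x, u⟫_ℝ - t) * G x) (t • u)]
        refine lintegral_congr fun x => ?_
        rw [inner_add_left, inner_smul_left, real_inner_self_eq_norm_sq, hu]
        simp
    _ = ∫⁻ x, ∫⁻ t : ℝ, wt ⟪x, u⟫_ℝ * G (x + t • u) :=
        (lintegral_lintegral_swap hmeas2.aemeasurable).symm
    _ = ∫⁻ x, wt ⟪x, u⟫_ℝ * (h x * xray u K x) := by
        refine lintegral_congr fun x => ?_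
        have hG2 : Measurable fun t : ℝ => G (x + t • u) :=
          hGm.comp (by fun_prop : Measurable fun t : ℝ => x + t • u)
        rw [lintegral_const_mul _ hG2, e1]

lemma moment_eq (u : E) (hu : ‖u‖ = 1) (K L : Set E) (hK : MeasurableSet K)
    (hL : MeasurableSet L) (h : E → ℝ≥0∞) (hm : Measurable h)
    (hinv : ∀ x (t : ℝ), h (x + t • u) = h x) (hx : ∀ x, xray u K x = xray u L x) :
    ∫⁻ x in K, h x = ∫⁻ x in L, h x := by
  rw [lintegral_eq_xray u hu K hK h hm hinv, lintegral_eq_xray u hu L hL h hm hinv]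
  simp only [hx]

/-- The unit ball is determined by its X-rays in two orthogonal directions. -/
theorem ball_unique (u v : E) (hu : ‖u‖ = 1) (hv : ‖v‖ = 1) (huv : ⟪u, v⟫_ℝ = 0) (K : Set E)
    (hK : IsBody K) (h1 : ∀ x, xray u K x = xray u (Metric.closedBall (0 : E) 1) x)
    (h2 : ∀ x, xray v K x = xray v (Metric.closedBall (0 : E) 1) x) :
    K = Metric.closedBall (0 : E) 1 := by
  obtain ⟨hconv, hcomp, hint⟩ := hK
  have huu : ⟪u, u⟫_ℝ = 1 := by rw [real_inner_self_eq_norm_sq, hu]; norm_num
  have hvu : ⟪v, u⟫_ℝ = 0 := by rw [real_inner_comm]; exact huv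
  set B := Metric.closedBall (0 : E) 1 with hB
  have hKm : MeasurableSet K := hcomp.isClosed.measurableSet
  have hBm : MeasurableSet B := Metric.isClosed_closedBall.measurableSet
  have hBc : IsCompact B := isCompact_closedBall 0 1
  have hKfin : volume K ≠ ∞ := hcomp.measure_lt_top.ne
  have hBfin : volume B ≠ ∞ := hBc.measure_lt_top.ne
  -- volumes
  have hvol : volume K = volume B := by
    have := moment_eq u hu K B hKm hBm (fun _ => 1) measurable_const (fun _ _ => rfl) h1
    simpa using this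
  -- moments
  have hA : ∀ x : E, 0 ≤ ‖x‖ ^ 2 - ⟪x, u⟫_ℝ ^ 2 := by
    intro x
    have := abs_real_inner_le_norm x u
    rw [hu, mul_one] at this
    have h3 : ⟪x, u⟫_ℝ ^ 2 ≤ ‖x‖ ^ 2 := sq_le_sq' (by linarith [neg_abs_le ⟪x, u⟫_ℝ])
      ((le_abs_self _).trans this)
    linarith
  have m1 := moment_eq u hu K B hKm hBm (fun x => ENNReal.ofReal (‖x‖ ^ 2 - ⟪x, u⟫_ℝ ^ 2))
    (by fun_prop) (by
      intro x t
      congr 1
      rw [norm_add_sq_real, inner_smul_right, norm_smul, hu, mul_one, Real.norm_eq_abs, sq_abs,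
        inner_add_left, inner_smul_left, huu]
      simp
      ring) h1
  have m2 := moment_eq v hv K B hKm hBm (fun x => ENNReal.ofReal (⟪x, u⟫_ℝ ^ 2))
    (by fun_prop) (by
      intro x t
      congr 1
      rw [inner_add_left, inner_smul_left, hvu]
      simp) h2
  have hsplit : ∀ x : E, ENNReal.ofReal (‖x‖ ^ 2) =
      ENNReal.ofReal (‖x‖ ^ 2 - ⟪x, u⟫_ℝ ^ 2) + ENNReal.ofReal (⟪x, u⟫_ℝ ^ 2) := by
    intro x
    rw [← ENNReal.ofReal_add (hA x) (sq_nonneg _)]
    congr 1
    ring
  have m3 : ∫⁻ x in K, ENNReal.ofReal (‖x‖ ^ 2) = ∫⁻ x in B, ENNReal.ofReal (‖x‖ ^ 2) := by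
    simp only [hsplit]
    rw [lintegral_add_left (by fun_prop), lintegral_add_left (by fun_prop), m1, m2]
  -- differences
  have hd : volume (K \ B) = volume (B \ K) := by
    have e1 := measure_inter_add_sdiff K hBm (μ := volume)
    have e2 := measure_inter_add_sdiff B hKm (μ := volume)
    rw [inter_comm] at e2
    have hfin : volume (K ∩ B) ≠ ∞ := (measure_mono inter_subset_left).trans_lt
      (hcomp.measure_lt_top) |>.ne
    rw [← e1, ← e2] at hvol
    exact (ENNReal.add_right_inj hfin).1 hvol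
  have hm' : ∫⁻ x in K \ B, ENNReal.ofReal (‖x‖ ^ 2) = ∫⁻ x in B \ K, ENNReal.ofReal (‖x‖ ^ 2) := by
    have e1 := lintegral_inter_add_sdiff (μ := volume) (fun x : E => ENNReal.ofReal (‖x‖ ^ 2)) K hBm
    have e2 := lintegral_inter_add_sdiff (μ := volume) (fun x : E => ENNReal.ofReal (‖x‖ ^ 2)) B hKm
    rw [inter_comm] at e2
    have hfin : ∫⁻ x in K ∩ B, ENNReal.ofReal (‖x‖ ^ 2) ≠ ∞ := by
      refine ne_top_of_le_ne_top hBfin ?_
      calc ∫⁻ x in K ∩ B, ENNReal.ofReal (‖x‖ ^ 2) ≤ ∫⁻ x in K ∩ B, 1 := by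
            refine setLIntegral_mono measurable_const fun x hx => ?_
            have : ‖x‖ ≤ 1 := by simpa [hB] using hx.2
            rw [← ENNReal.ofReal_one]
            exact ENNReal.ofReal_le_ofReal (by nlinarith [norm_nonneg x])
        _ = volume (K ∩ B) := by simp
        _ ≤ volume B := measure_mono inter_subset_right
    rw [← e1, ← e2] at m3
    exact (ENNReal.add_right_inj hfin).1 m3
  have hle : ∫⁻ x in B \ K, ENNReal.ofReal (‖x‖ ^ 2) ≤ volume (B \ K) := by
    calc ∫⁻ x in B \ K, ENNReal.ofReal (‖x‖ ^ 2) ≤ ∫⁻ x in B \ K, 1 := by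
          refine setLIntegral_mono measurable_const fun x hx => ?_
          have : ‖x‖ ≤ 1 := by simpa [hB] using hx.1
          rw [← ENNReal.ofReal_one]
          exact ENNReal.ofReal_le_ofReal (by nlinarith [norm_nonneg x])
      _ = volume (B \ K) := by simp
  have hsub : ∫⁻ x in K \ B, ENNReal.ofReal (‖x‖ ^ 2) =
      volume (K \ B) + ∫⁻ x in K \ B, ENNReal.ofReal (‖x‖ ^ 2 - 1) := by
    calc ∫⁻ x in K \ B, ENNReal.ofReal (‖x‖ ^ 2)
        = ∫⁻ x in K \ B, (1 + ENNReal.ofReal (‖x‖ ^ 2 - 1)) := by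
          refine setLIntegral_congr_fun (hKm.diff hBm) fun x hx => ?_
          have : 1 < ‖x‖ := by simpa [hB] using hx.2
          rw [← ENNReal.ofReal_one, ← ENNReal.ofReal_add (by norm_num) (by nlinarith)]
          congr 1
          ring
      _ = _ := by
          rw [lintegral_add_left measurable_const]
          simp
  have hfin2 : volume (K \ B) ≠ ∞ := ((measure_mono sdiff_subset).trans_lt hcomp.measure_lt_top).ne
  have hz : ∫⁻ x in K \ B, ENNReal.ofReal (‖x‖ ^ 2 - 1) = 0 := by
    rw [hsub] at hm'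
    rw [← hm', ← hd] at hle
    have : volume (K \ B) + ∫⁻ x in K \ B, ENNReal.ofReal (‖x‖ ^ 2 - 1) ≤
        volume (K \ B) + 0 := by rw [add_zero]; exact hle
    exact le_antisymm ((ENNReal.add_le_add_iff_left hfin2).1 this) bot_le
  have hnull : volume (K \ B) = 0 := by
    rw [lintegral_eq_zero_iff (by fun_prop), Filter.EventuallyEq,
      ae_restrict_iff' (hKm.diff hBm)] at hz
    rw [measure_eq_zero_iff_ae_notMem]
    filter_upwards [hz] with x hx hmem
    have h3 := hx hmem
    have : 1 < ‖x‖ := by simpa [hB] using hmem.2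
    simp only [Pi.zero_apply, ENNReal.ofReal_eq_zero] at h3
    nlinarith
  have hnull' : volume (B \ K) = 0 := by rw [← hd]; exact hnull
  have key : ∀ L M : Set E, Convex ℝ L → IsClosed L → (interior L).Nonempty → IsClosed M →
      volume (L \ M) = 0 → L ⊆ M := by
    intro L M hL hLc hLi hM h0
    have h3 : interior L \ M = ∅ := by
      have hop : IsOpen (interior L \ M) := isOpen_interior.sdiff hM
      by_contra hne
      have := hop.measure_pos volume (nonempty_iff_ne_empty.2 hne)
      exact this.ne' (measure_mono_null (sdiff_subset_sdiff_left interior_subset) h0)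
    have h4 : interior L ⊆ M := sdiff_eq_empty.1 h3
    calc L = closure (interior L) := by
          rw [hL.closure_interior_eq_closure_of_nonempty_interior hLi, hLc.closure_eq]
      _ ⊆ M := closure_minimal h4 hM
  refine Subset.antisymm (key K B hconv hcomp.isClosed hint Metric.isClosed_closedBall hnull)
    (key B K (convex_closedBall 0 1) Metric.isClosed_closedBall ?_ hcomp.isClosed hnull')
  refine ⟨0, ?_⟩
  exact Metric.ball_subset_interior_closedBall (Metric.mem_ball_self one_pos)

end Pool.Agent.Y512.XR
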