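import Pool.Agent.Y512.XR.Fub

/-! Ellipsoids determined by two X-rays. -/

set_option autoImplicit false

open MeasureTheory Set
open scoped InnerProductSpace ENNReal

noncomputable section

namespace Pool.Agent.Y512.XR

variable {E : Type*} [NormedAddCommGroup E] [InnerProductSpace ℝ E] [FiniteDimensional ℝ E]

/-- the ellipsoid `T B + c` -/
def ellipsoid (T : E ≃L[ℝ] E) (c : E) : Set E := (fun x => T x + c) '' Metric.closedBall (0 : E) 1

omit [FiniteDimensional ℝ E] in
lemma aff_inj (T : E ≃L[ℝ] E) (c : E) : Function.Injective fun x => T x + c := by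
  intro x y h
  exact T.injective (add_right_cancel h)

omit [FiniteDimensional ℝ E] in
lemma xray_aff (T : E ≃L[ℝ] E) (c : E) (u : E) (L : Set E) (x : E) :
    xray u ((fun x => T x + c) '' L) (T x + c) = xray (T.symm u) L x := by
  unfold xray
  congr 1
  ext t
  have h : T x + c + t • u = T (x + t • T.symm u) + c := by
    rw [map_add, map_smul, T.apply_symm_apply]
    abel
  simp only [mem_ofPred_eq]
  rw [h]
  constructor
  · rintro ⟨y, hy, hyx⟩
    have : y = x + t • T.symm u := T.injective (add_right_cancel hyx)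
    rw [← this]; exact hy
  · intro h
    exact ⟨_, h, rfl⟩

omit [FiniteDimensional ℝ E] in
lemma aff_surj (T : E ≃L[ℝ] E) (c y : E) : ∃ x, T x + c = y := ⟨T.symm (y - c), by simp⟩

/-- the affine homeomorphism -/
def affH (T : E ≃L[ℝ] E) (c : E) : E ≃ₜ E := T.toHomeomorph.trans (Homeomorph.addRight c)

omit [FiniteDimensional ℝ E] in
lemma isBody_image (T : E ≃L[ℝ] E) (c : E) {L : Set E} (hL : IsBody L) :
    IsBody ((fun x => T x + c) '' L) := by
  obtain ⟨h1, h2, h3⟩ := hL
  have hc : Continuous fun x => T x + c := T.continuous.add continuous_const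
  refine ⟨?_, h2.image hc, ?_⟩
  · rintro _ ⟨x, hx, rfl⟩ _ ⟨y, hy, rfl⟩ a b ha hb hab
    refine ⟨a • x + b • y, h1 hx hy ha hb hab, ?_⟩
    simp only
    rw [map_add, map_smul, map_smul]
    have : c = a • c + b • c := by rw [← add_smul, hab, one_smul]
    conv_lhs => rw [this]
    rw [smul_add, smul_add]
    abel
  · have := (affH T c).image_interior L
    change (fun x => T x + c) '' interior L = interior ((fun x => T x + c) '' L) at this
    rw [← this]
    exact h3.image _

omit [FiniteDimensional ℝ E] in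
lemma isBody_preimage (T : E ≃L[ℝ] E) (c : E) {K : Set E} (hK : IsBody K) :
    IsBody ((fun x => T x + c) ⁻¹' K) := by
  obtain ⟨h1, h2, h3⟩ := hK
  refine ⟨?_, ?_, ?_⟩
  · intro x hx y hy a b ha hb hab
    have := h1 hx hy ha hb hab
    rw [mem_preimage]
    convert this using 1
    rw [map_add, map_smul, map_smul, smul_add, smul_add]
    have : c = a • c + b • c := by rw [← add_smul, hab, one_smul]
    conv_lhs => rw [this]
    abel
  · exact (affH T c).isCompact_preimage.2 h2
  · have := (affH T c).preimage_interior K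
    change (fun x => T x + c) ⁻¹' interior K = interior ((fun x => T x + c) ⁻¹' K) at this
    rw [← this]
    obtain ⟨y, hy⟩ := h3
    obtain ⟨x, rfl⟩ := aff_surj T c y
    exact ⟨x, hy⟩

/-- the inverse shear -/
def shE (u p : E) (hp : ⟪p, u⟫_ℝ = 0) : E ≃L[ℝ] E :=
  LinearEquiv.toContinuousLinearEquiv
    { toFun := fun x => x + ⟪p, x⟫_ℝ • u
      invFun := sh u p
      map_add' := by intro x y; simp only [inner_add_right, add_smul]; abel
      map_smul' := by
        intro r x
        simp only [inner_smul_right, smul_add, smul_smul, RingHom.id_apply]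
      left_inv := by
        intro x
        simp only [sh, inner_add_right, inner_smul_right, hp]
        module
      right_inv := by
        intro x
        simp only [sh, inner_sub_right, inner_smul_right, hp]
        module }

lemma shE_symm (u p : E) (hp : ⟪p, u⟫_ℝ = 0) (x : E) : (shE u p hp).symm x = sh u p x := rfl

lemma ell_eq (u p : E) (hp : ⟪p, u⟫_ℝ = 0) : ell u p = ellipsoid (shE u p hp) 0 := by
  ext y
  unfold ell ellipsoid
  rw [mem_ofPred_eq, mem_image]
  constructor
  · intro h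
    refine ⟨(shE u p hp).symm y, ?_, ?_⟩
    · rw [mem_closedBall_zero_iff]; exact h
    · rw [(shE u p hp).apply_symm_apply, add_zero]
  · rintro ⟨x, hx, rfl⟩
    rw [mem_closedBall_zero_iff] at hx
    rw [add_zero, ← shE_symm u p hp, (shE u p hp).symm_apply_apply]
    exact hx

lemma isBody_ball (c : E) : IsBody (Metric.closedBall c 1) :=
  ⟨convex_closedBall c 1, isCompact_closedBall c 1,
    ⟨c, Metric.ball_subset_interior_closedBall (Metric.mem_ball_self one_pos)⟩⟩

lemma isBody_ell (u p : E) (hp : ⟪p, u⟫_ℝ = 0) : IsBody (ell u p) := by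
  rw [ell_eq u p hp]
  exact isBody_image _ _ (isBody_ball 0)

omit [FiniteDimensional ℝ E] in
lemma ell_zero (u : E) : ell u 0 = Metric.closedBall (0 : E) 1 := by
  ext x
  simp [ell, sh]

/-- The ball is not determined by X-rays in two directions which are not orthogonal. -/
lemma ball_nonunique (u v : E) (hu : ‖u‖ = 1) (huv : ⟪u, v⟫_ℝ ≠ 0) :
    ∃ K : Set E, IsBody K ∧ K ≠ Metric.closedBall (0 : E) 1 ∧
      (∀ x, xray u K x = xray u (Metric.closedBall (0 : E) 1) x) ∧
      ∀ x, xray v K x = xray v (Metric.closedBall (0 : E) 1) x := by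
  have huu : ⟪u, u⟫_ℝ = 1 := by rw [real_inner_self_eq_norm_sq, hu]; norm_num
  set β := ⟪u, v⟫_ℝ with hβ
  set a := v - β • u with ha
  have hau : ⟪a, u⟫_ℝ = 0 := by
    rw [ha, inner_sub_left, inner_smul_left, huu, real_inner_comm, ← hβ]
    simp
  have hv : v = a + β • u := by rw [ha]; abel
  by_cases ha0 : a = 0
  · have hvu : v = β • u := by rw [hv, ha0, zero_add]
    have h1 : ∀ x, xray u (Metric.closedBall u 1) x = xray u (Metric.closedBall (0 : E) 1) x := by
      intro x
      unfold xray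
      have : {t : ℝ | x + t • u ∈ Metric.closedBall u 1} =
          (fun t : ℝ => t + (-1)) ⁻¹' {t : ℝ | x + t • u ∈ Metric.closedBall (0 : E) 1} := by
        ext t
        simp only [mem_ofPred_eq, mem_preimage, mem_closedBall_iff_norm, sub_zero]
        have : x + t • u - u = x + (t + (-1)) • u := by module
        rw [this]
      rw [this, measure_preimage_add_right]
    refine ⟨Metric.closedBall u 1, isBody_ball u, ?_, h1, ?_⟩
    · intro h
      have h2 : (2 : ℝ) • u ∈ Metric.closedBall u 1 := by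
        rw [mem_closedBall_iff_norm]
        have : (2 : ℝ) • u - u = u := by module
        rw [this, hu]
      rw [h, mem_closedBall_zero_iff, norm_smul, hu] at h2
      norm_num at h2
    · rw [hvu]
      exact xray_smul_eq huv h1
  · have hA : 0 < ‖a‖ ^ 2 := by positivity
    have hp : ⟪(2 * β / ‖a‖ ^ 2) • a, u⟫_ℝ = 0 := by rw [inner_smul_left, hau]; simp
    refine ⟨ell u ((2 * β / ‖a‖ ^ 2) • a), isBody_ell _ _ hp, ?_, ?_, ?_⟩
    · intro h
      have h2 : a ∈ Metric.closedBall (0 : E) ‖a‖ := by simp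
      obtain ⟨y, hy⟩ : ∃ y : E, y = ‖a‖⁻¹ • a := ⟨_, rfl⟩
      have hna : ‖a‖ ≠ 0 := norm_ne_zero_iff.2 ha0
      have hy1 : ‖y‖ = 1 := by
        rw [hy, norm_smul, norm_inv, norm_norm, inv_mul_cancel₀ hna]
      have h3 : y ∈ Metric.closedBall (0 : E) 1 := by
        rw [mem_closedBall_zero_iff, hy1]
      rw [← h] at h3
      have hyu : ⟪y, u⟫_ℝ = 0 := by rw [hy, inner_smul_left, hau]; simp
      have hpy : ⟪(2 * β / ‖a‖ ^ 2) • a, y⟫_ℝ ≠ 0 := by
        rw [hy, inner_smul_left, inner_smul_right, real_inner_self_eq_norm_sq]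
        simp only [conj_trivial]
        have h7 : (2 : ℝ) * β / ‖a‖ ^ 2 ≠ 0 := div_ne_zero (mul_ne_zero two_ne_zero huv) hA.ne'
        exact mul_ne_zero h7 (mul_ne_zero (inv_ne_zero hna) hA.ne')
      have h4 : ‖sh u ((2 * β / ‖a‖ ^ 2) • a) y‖ ^ 2 =
          1 + ⟪(2 * β / ‖a‖ ^ 2) • a, y⟫_ℝ ^ 2 := by
        unfold sh
        rw [norm_sub_sq_real, inner_smul_right, hyu, norm_smul, hu, hy1, Real.norm_eq_abs, mul_one,
          mul_zero, sq_abs]
        ring
      have h5 : ‖sh u ((2 * β / ‖a‖ ^ 2) • a) y‖ ≤ 1 := h3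
      have h6 : 0 < ⟪(2 * β / ‖a‖ ^ 2) • a, y⟫_ℝ ^ 2 := by positivity
      nlinarith [norm_nonneg (sh u ((2 * β / ‖a‖ ^ 2) • a) y)]
    · intro x
      rw [xray_u u _ hu hp x, ell_zero]
    · intro x
      rw [xray_v u v hu (‖a‖ ^ 2) β hA a hau rfl hv x, ell_zero]

/-- The ball is determined by its X-rays in two directions iff these are orthogonal. -/
theorem ball_iff [MeasurableSpace E] [BorelSpace E] (u v : E) (hu : u ≠ 0) (hv : v ≠ 0) :
    (∀ K : Set E, IsBody K → (∀ x, xray u K x = xray u (Metric.closedBall (0 : E) 1) x) →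
      (∀ x, xray v K x = xray v (Metric.closedBall (0 : E) 1) x) →
        K = Metric.closedBall (0 : E) 1) ↔ ⟪u, v⟫_ℝ = 0 := by
  have hu0 : ‖u‖ ≠ 0 := norm_ne_zero_iff.2 hu
  have hv0 : ‖v‖ ≠ 0 := norm_ne_zero_iff.2 hv
  have hu1 : ‖‖u‖⁻¹ • u‖ = 1 := by rw [norm_smul, norm_inv, norm_norm, inv_mul_cancel₀ hu0]
  have hv1 : ‖‖v‖⁻¹ • v‖ = 1 := by rw [norm_smul, norm_inv, norm_norm, inv_mul_cancel₀ hv0]
  have hin : ⟪‖u‖⁻¹ • u, ‖v‖⁻¹ • v⟫_ℝ = ‖u‖⁻¹ * (‖v‖⁻¹ * ⟪u, v⟫_ℝ) := by
    rw [inner_smul_left, inner_smul_right]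
    simp
  constructor
  · intro h
    by_contra hne
    have h1 : ⟪‖u‖⁻¹ • u, ‖v‖⁻¹ • v⟫_ℝ ≠ 0 := by
      rw [hin]
      exact mul_ne_zero (inv_ne_zero hu0) (mul_ne_zero (inv_ne_zero hv0) hne)
    obtain ⟨K, hK, hKB, h2, h3⟩ := ball_nonunique _ _ hu1 h1
    refine hKB (h K hK ?_ ?_)
    · have := xray_smul_eq hu0 h2
      rwa [smul_smul, mul_inv_cancel₀ hu0, one_smul] at this
    · have := xray_smul_eq hv0 h3
      rwa [smul_smul, mul_inv_cancel₀ hv0, one_smul] at this
  · intro h K hK h1 h2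
    refine ball_unique _ _ hu1 hv1 ?_ K hK (xray_smul_eq (inv_ne_zero hu0) h1)
      (xray_smul_eq (inv_ne_zero hv0) h2)
    rw [hin, h, mul_zero, mul_zero]

/-- An ellipsoid is determined by its X-rays in two directions iff these are conjugate. -/
theorem ellipsoid_iff [MeasurableSpace E] [BorelSpace E] (u v : E) (hu : u ≠ 0) (hv : v ≠ 0)
    (T : E ≃L[ℝ] E) (c : E) :
    (∀ K : Set E, IsBody K → (∀ x, xray u K x = xray u (ellipsoid T c) x) →
      (∀ x, xray v K x = xray v (ellipsoid T c) x) → K = ellipsoid T c) ↔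
        ⟪T.symm u, T.symm v⟫_ℝ = 0 := by
  have hu' : T.symm u ≠ 0 := fun h => hu (T.symm.injective (by rw [h, map_zero]))
  have hv' : T.symm v ≠ 0 := fun h => hv (T.symm.injective (by rw [h, map_zero]))
  have hto : ∀ (w : E) (L M : Set E), (∀ x, xray (T.symm w) L x = xray (T.symm w) M x) →
      ∀ y, xray w ((fun x => T x + c) '' L) y = xray w ((fun x => T x + c) '' M) y := by
    intro w L M h y
    obtain ⟨x, rfl⟩ := aff_surj T c y
    rw [xray_aff, xray_aff, h]
  rw [← ball_iff _ _ hu' hv']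
  constructor
  · intro h L hL h1 h2
    have h3 := h ((fun x => T x + c) '' L) (isBody_image T c hL) (hto u L _ h1) (hto v L _ h2)
    exact (image_injective.2 (aff_inj T c)) h3
  · intro h K hK h1 h2
    have hKi : (fun x => T x + c) '' ((fun x => T x + c) ⁻¹' K) = K :=
      image_preimage_eq _ (fun y => aff_surj T c y)
    have h3 := h ((fun x => T x + c) ⁻¹' K) (isBody_preimage T c hK) (by
      intro x
      rw [← xray_aff T c u, ← xray_aff T c u, hKi]
      exact h1 _) (by
      intro x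
      rw [← xray_aff T c v, ← xray_aff T c v, hKi]
      exact h2 _)
    rw [← hKi, h3]
    rfl

end Pool.Agent.Y512.XR
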